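import Mathlib
import Pool.Agent.Q333.SC.Ent

/-!
# Marginal scenarios: complete graphs are not Shannon-complete

Definitions used from `Pool/Agent/Q333/SC/Ent.lean` (for functions of the subsets of `Fin n`):

* `IsPolymatroid f`;
* `IsEntropic f`: `f S = H(A_S)` for all `S`, for discrete random variables `A_i` with values in `ℕ`
  (that is, with countable ranges) and finite entropies; they are given by their joint distribution
  `P` (`IsJoint P`), and `entropy P S` is the Shannon entropy of `(A_i)_{i ∈ S}` in bits.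
-/

set_option autoImplicit false

namespace Pool.Agent.Results.MP_7216ee_lc.CompleteGraphs

open Finset Pool.Agent.Q333.SC

/-- Marginal scenarios: nonempty families of sets which are closed under taking subsets. -/
def IsScenario {n : ℕ} (M : Finset (Finset (Fin n))) : Prop :=
  M.Nonempty ∧ ∀ S ∈ M, ∀ T, T ⊆ S → T ∈ M

/-- The scenario `M` is Shannon-complete: every linear inequality between the values at members of
`M` which holds for every entropic polymatroid holds for every polymatroid. -/
def ShannonComplete {n : ℕ} (M : Finset (Finset (Fin n))) : Prop :=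
  ∀ c : Finset (Fin n) → ℝ, (∀ f, IsEntropic f → 0 ≤ ∑ S ∈ M, c S * f S) →
    ∀ f, IsPolymatroid f → 0 ≤ ∑ S ∈ M, c S * f S

/-- The complete graph scenario `K_n`. -/
def completeGraph (n : ℕ) : Finset (Finset (Fin n)) := univ.filter fun S => S.card ≤ 2

/-- The graph of the pairs in a scenario. -/
def pairGraph {n : ℕ} (M : Finset (Finset (Fin n))) : SimpleGraph (Fin n) where
  Adj u v := u ≠ v ∧ {u, v} ∈ M
  symm := ⟨fun u v h => ⟨h.1.symm, by rw [pair_comm]; exact h.2⟩⟩
  loopless := ⟨fun u h => h.1 rfl⟩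

/-- The graph `G` has the complete graph with five vertices as a minor: there are five pairwise
disjoint connected sets of vertices with an edge between any two of them. -/
def HasK5Minor {V : Type} (G : SimpleGraph V) : Prop :=
  ∃ B : Fin 5 → Set V, (∀ j, (G.induce (B j)).Connected) ∧
    (∀ j k, j ≠ k → Disjoint (B j) (B k)) ∧
    ∀ j k, j ≠ k → ∃ u ∈ B j, ∃ v ∈ B k, G.Adj u v

/-! ### Linear functionals -/

/-- functionals of the values at the members of `M` -/
def Rep {n : ℕ} (M : Finset (Finset (Fin n))) (L : (Finset (Fin n) → ℝ) → ℝ) : Prop :=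
  ∃ c : Finset (Fin n) → ℝ, ∀ f, L f = ∑ S ∈ M, c S * f S

variable {n : ℕ} {M : Finset (Finset (Fin n))}

lemma Rep.zero : Rep M (fun _ => 0) := ⟨fun _ => 0, by simp⟩

lemma Rep.single {S : Finset (Fin n)} (hS : S ∈ M) : Rep M (fun f => f S) :=
  ⟨fun T => if T = S then 1 else 0, by simp [hS]⟩

lemma Rep.add {L L' : (Finset (Fin n) → ℝ) → ℝ} (h : Rep M L) (h' : Rep M L') :
    Rep M (fun f => L f + L' f) := by
  obtain ⟨c, hc⟩ := h
  obtain ⟨c', hc'⟩ := h'
  refine ⟨fun S => c S + c' S, fun f => ?_⟩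
  beta_reduce
  rw [hc, hc', ← sum_add_distrib]
  exact sum_congr rfl fun S _ => by ring

lemma Rep.smul {L : (Finset (Fin n) → ℝ) → ℝ} (r : ℝ) (h : Rep M L) :
    Rep M (fun f => r * L f) := by
  obtain ⟨c, hc⟩ := h
  refine ⟨fun S => r * c S, fun f => ?_⟩
  beta_reduce
  rw [hc, mul_sum]
  exact sum_congr rfl fun S _ => by ring

lemma Rep.sum {ι : Type} (s : Finset ι) {L : ι → (Finset (Fin n) → ℝ) → ℝ}
    (h : ∀ i, Rep M (L i)) : Rep M (fun f => ∑ i ∈ s, L i f) := by
  classical
  induction s using Finset.induction_on with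
  | empty => simpa using Rep.zero
  | insert i s hi ih =>
    simp only [sum_insert hi]
    exact (h i).add ih

/-! ### Polymatroids -/

lemma submod' {f : Finset (Fin n) → ℝ} (hf : IsPolymatroid f) {A U S T : Finset (Fin n)}
    (hA : A ⊆ S ∩ T) (hU : U ⊆ S ∪ T) : f A + f U ≤ f S + f T := by
  have h1 := hf.2.2.1 _ _ hA
  have h2 := hf.2.2.1 _ _ hU
  have h3 := hf.2.2.2 S T
  linarith

/-- The five-variable inequality with pairs only. -/
lemma k5 {f : Finset (Fin n) → ℝ} (hf : IsPolymatroid f)
    (hzy : ∀ x y z u : Fin n, 2 * (f {z} + f {u} - f {z, u}) ≤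
      (f {x} + f {y} - f {x, y}) + (f {x} + f {z, u} - f {x, z, u}) +
      3 * (f {x, z} + f {x, u} - f {x, z, u} - f {x}) +
      (f {y, z} + f {y, u} - f {y, z, u} - f {y})) (c d a b p : Fin n) :
    0 ≤ -f {c} - 2 * f {a} - 2 * f {b} - 5 * f {p} - f {c, d} - 2 * f {a, b} + 3 * f {c, a} +
      3 * f {c, b} + f {d, a} + f {d, b} - 4 * f {c, p} - f {d, p} + 5 * f {a, p} +
      5 * f {b, p} := by
  have h0 := hzy c d a b
  have h1 : f {p} + f {a, b, p} ≤ f {a, p} + f {b, p} := by
    refine submod' hf ?_ ?_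
    · intro i hi
      simp only [mem_singleton, mem_inter, mem_insert] at hi ⊢
      tauto
    · intro i hi
      simp only [mem_singleton, mem_union, mem_insert] at hi ⊢
      tauto
  have h2 : f {a, b} + f {c, p} ≤ f {c, a, b} + f {a, b, p} := by
    refine submod' hf ?_ ?_
    · intro i hi
      simp only [mem_singleton, mem_inter, mem_insert] at hi ⊢
      tauto
    · intro i hi
      simp only [mem_singleton, mem_union, mem_insert] at hi ⊢
      tauto
  have h3 : f {a, b} + f {d, p} ≤ f {d, a, b} + f {a, b, p} := by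
    refine submod' hf ?_ ?_
    · intro i hi
      simp only [mem_singleton, mem_inter, mem_insert] at hi ⊢
      tauto
    · intro i hi
      simp only [mem_singleton, mem_union, mem_insert] at hi ⊢
      tauto
  linarith

lemma adj_close {f : Finset (Fin n) → ℝ} (hf : IsPolymatroid f) (u v : Fin n) :
    (∀ w, |f {u, w} - f {v, w}| ≤ 2 * f {u, v} - f {u} - f {v}) ∧
      |f {u} - f {v}| ≤ 2 * f {u, v} - f {u} - f {v} := by
  have m1 : f {u} ≤ f {u, v} := hf.2.2.1 _ _ (by simp)
  have m2 : f {v} ≤ f {u, v} := hf.2.2.1 _ _ (by simp)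
  constructor
  · intro w
    have h1 : f {v} + f {u, w} ≤ f {v, w} + f {u, v} := by
      refine submod' hf ?_ ?_
      · intro i hi
        simp only [mem_singleton, mem_inter, mem_insert] at hi ⊢
        tauto
      · intro i hi
        simp only [mem_singleton, mem_union, mem_insert] at hi ⊢
        tauto
    have h2 : f {u} + f {v, w} ≤ f {u, w} + f {u, v} := by
      refine submod' hf ?_ ?_
      · intro i hi
        simp only [mem_singleton, mem_inter, mem_insert] at hi ⊢
        tauto
      · intro i hi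
        simp only [mem_singleton, mem_union, mem_insert] at hi ⊢
        tauto
    rw [abs_le]
    constructor <;> linarith
  · rw [abs_le]
    constructor <;> linarith

/-! ### The violating polymatroid -/

/-- a polymatroid on five elements -/
def r (S : Finset (Fin 5)) : ℕ :=
  if S = ∅ then 0
  else if S.card = 1 then (if 4 ∈ S then 3 else 2)
  else if S ⊆ {2, 3, 4} ∨ S = {0, 2} ∨ S = {0, 3} ∨ S = {1, 2} ∨ S = {1, 3} then 3
  else 4

set_option maxRecDepth 100000 in
lemma r_mono : ∀ S T : Finset (Fin 5), S ⊆ T → r S ≤ r T := by decide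

set_option maxRecDepth 100000 in
lemma r_submod : ∀ S T : Finset (Fin 5), r (S ∩ T) + r (S ∪ T) ≤ r S + r T := by decide

open Classical in
/-- the classes which meet `S` -/
noncomputable def cls (B : Fin 5 → Set (Fin n)) (S : Finset (Fin n)) : Finset (Fin 5) :=
  univ.filter fun j => ∃ i ∈ S, i ∈ B j

lemma mem_cls {B : Fin 5 → Set (Fin n)} {S : Finset (Fin n)} {j : Fin 5} :
    j ∈ cls B S ↔ ∃ i ∈ S, i ∈ B j := by
  simp [cls]

/-- the violating polymatroid -/
noncomputable def viol (B : Fin 5 → Set (Fin n)) (S : Finset (Fin n)) : ℝ := (r (cls B S) : ℝ)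

lemma viol_polymatroid (B : Fin 5 → Set (Fin n)) : IsPolymatroid (viol B) := by
  have hmono : ∀ S T : Finset (Fin n), S ⊆ T → cls B S ⊆ cls B T := by
    intro S T h j hj
    rw [mem_cls] at hj ⊢
    obtain ⟨i, hi, hij⟩ := hj
    exact ⟨i, h hi, hij⟩
  refine ⟨?_, fun S => Nat.cast_nonneg _, ?_, ?_⟩
  · have : cls B ∅ = ∅ := by
      ext j
      rw [mem_cls]
      simp
    unfold viol
    rw [this]
    simp [r]
  · intro S T h
    unfold viol
    exact_mod_cast r_mono _ _ (hmono S T h)
  · intro S T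
    unfold viol
    have h1 : cls B (S ∪ T) = cls B S ∪ cls B T := by
      ext j
      simp only [mem_cls, mem_union]
      constructor
      · rintro ⟨i, hi | hi, hij⟩
        · exact Or.inl ⟨i, hi, hij⟩
        · exact Or.inr ⟨i, hi, hij⟩
      · rintro (⟨i, hi, hij⟩ | ⟨i, hi, hij⟩)
        · exact ⟨i, Or.inl hi, hij⟩
        · exact ⟨i, Or.inr hi, hij⟩
    have h2 : cls B (S ∩ T) ⊆ cls B S ∩ cls B T := by
      intro j hj
      rw [mem_inter]
      exact ⟨hmono _ _ inter_subset_left hj, hmono _ _ inter_subset_right hj⟩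
    have h3 := r_submod (cls B S) (cls B T)
    have h4 := r_mono _ _ h2
    rw [h1]
    have h5 : r (cls B (S ∩ T)) + r (cls B S ∪ cls B T) ≤ r (cls B S) + r (cls B T) := by omega
    exact_mod_cast h5

lemma cls_pair {B : Fin 5 → Set (Fin n)} (hB : ∀ j k, j ≠ k → Disjoint (B j) (B k)) {j k : Fin 5}
    {u v : Fin n} (hu : u ∈ B j) (hv : v ∈ B k) : cls B {u, v} = {j, k} := by
  have huniq : ∀ {j j' : Fin 5} {x : Fin n}, x ∈ B j → x ∈ B j' → j' = j := by
    intro j j' x h h'
    by_contra hne
    exact Set.disjoint_left.1 (hB j' j hne) h' h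
  ext l
  rw [mem_cls]
  simp only [mem_insert, mem_singleton]
  constructor
  · rintro ⟨i, rfl | rfl, hi⟩
    · exact Or.inl (huniq hu hi)
    · exact Or.inr (huniq hv hi)
  · rintro (rfl | rfl)
    · exact ⟨u, Or.inl rfl, hu⟩
    · exact ⟨v, Or.inr rfl, hv⟩

lemma cls_single {B : Fin 5 → Set (Fin n)} (hB : ∀ j k, j ≠ k → Disjoint (B j) (B k)) {j : Fin 5}
    {u : Fin n} (hu : u ∈ B j) : cls B {u} = {j} := by
  have := cls_pair hB hu hu
  simpa using this

/-! ### The theorem on minors -/

open Classical in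
/-- the total failure of the variables in the same class to be equivalent along the edges -/
noncomputable def fail (M : Finset (Finset (Fin n))) (B : Fin 5 → Set (Fin n))
    (f : Finset (Fin n) → ℝ) : ℝ :=
  ∑ u, ∑ v, if (∃ j, u ∈ B j ∧ v ∈ B j) ∧ (pairGraph M).Adj u v then
    2 * f {u, v} + ((-1) * f {u} + (-1) * f {v}) else 0

lemma fail_rep (hM : IsScenario M) (B : Fin 5 → Set (Fin n)) : Rep M (fail M B) := by
  unfold fail
  refine Rep.sum _ fun u => Rep.sum _ fun v => ?_
  by_cases h : (∃ j, u ∈ B j ∧ v ∈ B j) ∧ (pairGraph M).Adj u v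
  · simp only [if_pos h]
    have huv : {u, v} ∈ M := h.2.2
    have hu : {u} ∈ M := hM.2 _ huv _ (by simp)
    have hv : {v} ∈ M := hM.2 _ huv _ (by simp)
    exact ((Rep.single huv).smul 2).add (((Rep.single hu).smul _).add ((Rep.single hv).smul _))
  · simp only [if_neg h]
    exact Rep.zero

lemma term_nonneg {f : Finset (Fin n) → ℝ} (hf : IsPolymatroid f) (u v : Fin n) :
    0 ≤ 2 * f {u, v} + ((-1) * f {u} + (-1) * f {v}) := by
  have m1 : f {u} ≤ f {u, v} := hf.2.2.1 _ _ (by simp)
  have m2 : f {v} ≤ f {u, v} := hf.2.2.1 _ _ (by simp)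
  linarith

lemma le_fail {f : Finset (Fin n) → ℝ} (hf : IsPolymatroid f) {B : Fin 5 → Set (Fin n)}
    {j : Fin 5} {u v : Fin n} (hu : u ∈ B j) (hv : v ∈ B j) (h : (pairGraph M).Adj u v) :
    2 * f {u, v} - f {u} - f {v} ≤ fail M B f := by
  classical
  have hnn : ∀ u v : Fin n, 0 ≤ if (∃ j, u ∈ B j ∧ v ∈ B j) ∧ (pairGraph M).Adj u v then
      2 * f {u, v} + ((-1) * f {u} + (-1) * f {v}) else 0 := by
    intro u v
    split_ifs
    · exact term_nonneg hf u v
    · exact le_rfl
  unfold fail
  have h1 := single_le_sum (f := fun u => ∑ v, if (∃ j, u ∈ B j ∧ v ∈ B j) ∧ (pairGraph M).Adj u v then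
      2 * f {u, v} + ((-1) * f {u} + (-1) * f {v}) else 0)
    (fun u _ => sum_nonneg fun v _ => hnn u v) (mem_univ u)
  have h2 := single_le_sum (f := fun v => if (∃ j, u ∈ B j ∧ v ∈ B j) ∧ (pairGraph M).Adj u v then
      2 * f {u, v} + ((-1) * f {u} + (-1) * f {v}) else 0)
    (fun v _ => hnn u v) (mem_univ v)
  rw [if_pos ⟨⟨j, hu, hv⟩, h⟩] at h2
  linarith

lemma fail_nonneg {f : Finset (Fin n) → ℝ} (hf : IsPolymatroid f) (B : Fin 5 → Set (Fin n)) :
    0 ≤ fail M B f := by
  classical
  unfold fail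
  refine sum_nonneg fun u _ => sum_nonneg fun v _ => ?_
  split_ifs
  · exact term_nonneg hf u v
  · exact le_rfl

lemma walk_close (B : Fin 5 → Set (Fin n)) (j : Fin 5) {u v : B j}
    (p : ((pairGraph M).induce (B j)).Walk u v) :
    ∃ C : ℕ, ∀ f : Finset (Fin n) → ℝ, IsPolymatroid f →
      ∀ w : Fin n, |f {(u : Fin n), w} - f {(v : Fin n), w}| ≤ C * fail M B f := by
  induction p with
  | nil => exact ⟨0, fun f hf w => by simp⟩
  | @cons u v w' h p ih =>
    obtain ⟨C, hC⟩ := ih
    refine ⟨C + 1, fun f hf w => ?_⟩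
    have h1 := hC f hf w
    have h2 := (adj_close hf (u : Fin n) (v : Fin n)).1 w
    have h3 := le_fail (M := M) hf u.2 v.2 h
    push_cast
    rw [abs_le] at h1 h2 ⊢
    constructor <;> nlinarith

lemma reach_close {B : Fin 5 → Set (Fin n)} {j : Fin 5}
    (hc : ((pairGraph M).induce (B j)).Connected) {u v : Fin n} (hu : u ∈ B j) (hv : v ∈ B j) :
    ∃ C : ℕ, ∀ f : Finset (Fin n) → ℝ, IsPolymatroid f →
      ∀ w : Fin n, |f {u, w} - f {v, w}| ≤ C * fail M B f := by
  obtain ⟨p⟩ := hc.preconnected ⟨u, hu⟩ ⟨v, hv⟩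
  exact walk_close B j p

lemma pair_close {B : Fin 5 → Set (Fin n)}
    (hc : ∀ j, ((pairGraph M).induce (B j)).Connected) {j k : Fin 5} {x y u v : Fin n}
    (hx : x ∈ B j) (hu : u ∈ B j) (hy : y ∈ B k) (hv : v ∈ B k) :
    ∃ C : ℕ, ∀ f : Finset (Fin n) → ℝ, IsPolymatroid f →
      |f {x, y} - f {u, v}| ≤ C * fail M B f := by
  obtain ⟨C, hC⟩ := reach_close (hc j) hx hu
  obtain ⟨C', hC'⟩ := reach_close (hc k) hy hv
  refine ⟨C + C', fun f hf => ?_⟩
  have h1 := hC f hf y
  have h2 := hC' f hf u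
  rw [pair_comm y u, pair_comm v u] at h2
  push_cast
  rw [abs_le] at h1 h2 ⊢
  constructor <;> nlinarith

theorem minor (hM : IsScenario M) (hminor : HasK5Minor (pairGraph M)) : ¬ ShannonComplete M := by
  classical
  intro hSC
  obtain ⟨B, hconn, hdis, hedge⟩ := hminor
  have hedge' : ∀ j k : Fin 5, ∃ u v : Fin n, j ≠ k → u ∈ B j ∧ v ∈ B k ∧ {u, v} ∈ M := by
    intro j k
    by_cases h : j = k
    · obtain ⟨⟨u, _⟩⟩ := (hconn j).nonempty
      exact ⟨u, u, fun h' => absurd h h'⟩
    · obtain ⟨u, hu, v, hv, huv⟩ := hedge j k h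
      exact ⟨u, v, fun _ => ⟨hu, hv, huv.2⟩⟩
  choose e e' he using hedge'
  -- representatives
  obtain ⟨x, hx⟩ : ∃ x : Fin 5 → Fin n, ∀ j, x j ∈ B j ∧ {x j} ∈ M := by
    have : ∀ j : Fin 5, ∃ x : Fin n, x ∈ B j ∧ {x} ∈ M := by
      intro j
      obtain ⟨k, hk⟩ : ∃ k : Fin 5, j ≠ k := by
        by_cases h : j = 0
        · exact ⟨1, by rw [h]; decide⟩
        · exact ⟨0, h⟩
      have := he j k hk
      exact ⟨e j k, this.1, hM.2 _ this.2.2 _ (by simp)⟩
    choose x hx using this
    exact ⟨x, hx⟩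
  -- the constants
  have hclose : ∀ j k : Fin 5, ∃ C : ℕ, j ≠ k → ∀ f : Finset (Fin n) → ℝ, IsPolymatroid f →
      |f {x j, x k} - f {e j k, e' j k}| ≤ C * fail M B f := by
    intro j k
    by_cases h : j = k
    · exact ⟨0, fun h' => absurd h h'⟩
    · obtain ⟨C, hC⟩ := pair_close hconn (hx j).1 (he j k h).1 (hx k).1 (he j k h).2.1
      exact ⟨C, fun _ => hC⟩
  choose C hC using hclose
  set K : ℕ := ∑ j, ∑ k, C j k with hK
  have hCK : ∀ j k : Fin 5, j ≠ k → ∀ f : Finset (Fin n) → ℝ, IsPolymatroid f →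
      |f {x j, x k} - f {e j k, e' j k}| ≤ K * fail M B f := by
    intro j k hjk f hf
    refine (hC j k hjk f hf).trans ?_
    refine mul_le_mul_of_nonneg_right ?_ (fail_nonneg hf B)
    have h1 : C j k ≤ K := by
      rw [hK]
      exact (single_le_sum (f := fun k => C j k) (fun _ _ => Nat.zero_le _) (mem_univ k)).trans
        (single_le_sum (f := fun j => ∑ k, C j k) (fun _ _ => Nat.zero_le _) (mem_univ j))
    exact_mod_cast h1
  -- the functional
  set L : (Finset (Fin n) → ℝ) → ℝ := fun f =>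
    (-1) * f {x 0} + ((-2) * f {x 2} + ((-2) * f {x 3} + ((-5) * f {x 4} +
    ((-1) * f {e 0 1, e' 0 1} + ((-2) * f {e 2 3, e' 2 3} + (3 * f {e 0 2, e' 0 2} +
    (3 * f {e 0 3, e' 0 3} + (1 * f {e 1 2, e' 1 2} + (1 * f {e 1 3, e' 1 3} +
    ((-4) * f {e 0 4, e' 0 4} + ((-1) * f {e 1 4, e' 1 4} + (5 * f {e 2 4, e' 2 4} +
    (5 * f {e 3 4, e' 3 4} + (26 * (K : ℝ)) * fail M B f))))))))))))) with hL
  have hrep : Rep M L := by
    have hs : ∀ j, Rep M (fun f => f {x j}) := fun j => Rep.single (hx j).2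
    have hp : ∀ j k, j ≠ k → Rep M (fun f => f {e j k, e' j k}) := fun j k h =>
      Rep.single (he j k h).2.2
    exact ((hs 0).smul _).add (((hs 2).smul _).add (((hs 3).smul _).add (((hs 4).smul _).add
      (((hp 0 1 (by decide)).smul _).add (((hp 2 3 (by decide)).smul _).add
      (((hp 0 2 (by decide)).smul _).add (((hp 0 3 (by decide)).smul _).add
      (((hp 1 2 (by decide)).smul _).add (((hp 1 3 (by decide)).smul _).add
      (((hp 0 4 (by decide)).smul _).add (((hp 1 4 (by decide)).smul _).add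
      (((hp 2 4 (by decide)).smul _).add (((hp 3 4 (by decide)).smul _).add
      ((fail_rep hM B).smul _))))))))))))))
  obtain ⟨c, hc⟩ := hrep
  have hent : ∀ f, IsEntropic f → 0 ≤ ∑ S ∈ M, c S * f S := by
    intro f hf
    rw [← hc f]
    have hpoly := entropic_polymatroid hf
    have h0 := k5 hpoly (entropic_zy hf) (x 0) (x 1) (x 2) (x 3) (x 4)
    have h01 := hCK 0 1 (by decide) f hpoly
    have h23 := hCK 2 3 (by decide) f hpoly
    have h02 := hCK 0 2 (by decide) f hpoly
    have h03 := hCK 0 3 (by decide) f hpoly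
    have h12 := hCK 1 2 (by decide) f hpoly
    have h13 := hCK 1 3 (by decide) f hpoly
    have h04 := hCK 0 4 (by decide) f hpoly
    have h14 := hCK 1 4 (by decide) f hpoly
    have h24 := hCK 2 4 (by decide) f hpoly
    have h34 := hCK 3 4 (by decide) f hpoly
    rw [abs_le] at h01 h23 h02 h03 h12 h13 h04 h14 h24 h34
    simp only [hL]
    linarith [h01.1, h01.2, h23.1, h23.2, h02.1, h02.2, h03.1, h03.2, h12.1, h12.2, h13.1, h13.2,
      h04.1, h04.2, h14.1, h14.2, h24.1, h24.2, h34.1, h34.2]
  have hbad := hSC c hent (viol B) (viol_polymatroid B)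
  rw [← hc] at hbad
  have hs : ∀ j, viol B {x j} = (r {j} : ℝ) := by
    intro j
    unfold viol
    rw [cls_single hdis (hx j).1]
  have hp : ∀ j k, j ≠ k → viol B {e j k, e' j k} = (r {j, k} : ℝ) := by
    intro j k h
    unfold viol
    rw [cls_pair hdis (he j k h).1 (he j k h).2.1]
  have hfail : fail M B (viol B) = 0 := by
    unfold fail
    refine sum_eq_zero fun u _ => sum_eq_zero fun v _ => ?_
    split_ifs with h
    · obtain ⟨⟨j, hu, hv⟩, -⟩ := h
      unfold viol
      rw [cls_single hdis hu, cls_single hdis hv, cls_pair hdis hu hv]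
      simp only [insert_eq_of_mem (mem_singleton_self j)]
      ring
    · rfl
  have r0 : r {0} = 2 := by decide
  have r2 : r {2} = 2 := by decide
  have r3 : r {3} = 2 := by decide
  have r4 : r {4} = 3 := by decide
  have r01 : r {0, 1} = 4 := by decide
  have r23 : r {2, 3} = 3 := by decide
  have r02 : r {0, 2} = 3 := by decide
  have r03 : r {0, 3} = 3 := by decide
  have r12 : r {1, 2} = 3 := by decide
  have r13 : r {1, 3} = 3 := by decide
  have r04 : r {0, 4} = 4 := by decide
  have r14 : r {1, 4} = 4 := by decide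
  have r24 : r {2, 4} = 3 := by decide
  have r34 : r {3, 4} = 3 := by decide
  simp only [hL] at hbad
  rw [hs 0, hs 2, hs 3, hs 4, hp 0 1 (by decide), hp 2 3 (by decide), hp 0 2 (by decide),
    hp 0 3 (by decide), hp 1 2 (by decide), hp 1 3 (by decide), hp 0 4 (by decide),
    hp 1 4 (by decide), hp 2 4 (by decide), hp 3 4 (by decide), hfail, r0, r2, r3, r4, r01, r23,
    r02, r03, r12, r13, r04, r14, r24, r34] at hbad
  norm_num at hbad

lemma completeGraph_scenario (n : ℕ) : IsScenario (completeGraph n) := by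
  constructor
  · exact ⟨∅, by simp [completeGraph]⟩
  · intro S hS T hT
    simp only [completeGraph, mem_filter, mem_univ, true_and] at hS ⊢
    exact (card_le_card hT).trans hS

lemma completeGraph_minor {n : ℕ} (hn : 5 ≤ n) : HasK5Minor (pairGraph (completeGraph n)) := by
  refine ⟨fun j => {Fin.castLE hn j}, ?_, ?_, ?_⟩
  · intro j
    have : Subsingleton ({Fin.castLE hn j} : Set (Fin n)) := by
      constructor
      rintro ⟨a, ha⟩ ⟨b, hb⟩
      simp only [Set.mem_singleton_iff] at ha hb
      subst ha hb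
      rfl
    refine { preconnected := ?_, nonempty := ⟨⟨Fin.castLE hn j, rfl⟩⟩ }
    intro u v
    rw [Subsingleton.elim u v]
  · intro j k h
    rw [Set.disjoint_singleton]
    intro h'
    exact h (Fin.castLE_injective hn h')
  · intro j k h
    refine ⟨_, rfl, _, rfl, ?_, ?_⟩
    · intro h'
      exact h (Fin.castLE_injective hn h')
    · simp only [completeGraph, mem_filter, mem_univ, true_and]
      exact card_le_two

/-- (1) The complete graph scenario `K_n` is not Shannon-complete for any `n ≥ 5`: some linear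
inequality between the entropies of single variables and of pairs of variables holds for all
discrete random variables and fails for some polymatroid. So the answer to question Q2 is no.

(2) More generally, a marginal scenario is not Shannon-complete if the graph formed by its pairs has
the complete graph `K_5` as a minor. -/
theorem result :
    (∀ n : ℕ, 5 ≤ n → ¬ ShannonComplete (completeGraph n)) ∧
    ∀ (n : ℕ) (M : Finset (Finset (Fin n))), IsScenario M → HasK5Minor (pairGraph M) →
      ¬ ShannonComplete M :=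
  ⟨fun n hn => minor (completeGraph_scenario n) (completeGraph_minor hn),
    fun _ _ hM h => minor hM h⟩

end Pool.Agent.Results.MP_7216ee_lc.CompleteGraphs
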